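import Mathlib
import Pool.Agent.Helper42.DB.Goals2

set_option autoImplicit false

/-!
# Packet CRV of the dispersing billiards project (MP_48f005_an)
-/

namespace Pool.Agent.Helper42.DB.PkCRV

open Pool.Agent.Helper42.DB

lemma hasDerivAt_re {G : ℝ → ℂ} {G' : ℂ} {t : ℝ} (h : HasDerivAt G G' t) :
    HasDerivAt (fun s => (G s).re) G'.re t := by
  exact (Complex.reCLM.hasFDerivAt (x := G t)).comp_hasDerivAt t h

lemma hasDerivAt_im {G : ℝ → ℂ} {G' : ℂ} {t : ℝ} (h : HasDerivAt G G' t) :
    HasDerivAt (fun s => (G s).im) G'.im t := by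
  exact (Complex.imCLM.hasFDerivAt (x := G t)).comp_hasDerivAt t h

theorem thm : G_CRV := by
  intro c θ u v
  constructor
  · have hd : ∀ t : ℝ, HasDerivAt (fun s => cr (ee θ) (c.G s)) (c.R t * Real.cos (t - θ)) t := by
      intro t
      have h1 := hasDerivAt_re (c.der t)
      have h2 := hasDerivAt_im (c.der t)
      have h3 := (h2.const_mul (Real.cos θ)).sub (h1.const_mul (Real.sin θ))
      have h4 : Real.cos θ * ((c.R t : ℝ) • tt t).im - Real.sin θ * ((c.R t : ℝ) • tt t).re =
          c.R t * Real.cos (t - θ) := by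
        rw [← cr_ee_tt, ← cr_smul_right]; simp only [cr, ee_re, ee_im]
      rw [h4] at h3
      have h5 : (fun s => cr (ee θ) (c.G s)) =
          (fun s => Real.cos θ * (c.G s).im) - fun s => Real.sin θ * (c.G s).re := by
        funext s; simp [cr]
      rw [h5]; exact h3
    rw [cr_sub_right]
    symm
    apply intervalIntegral.integral_eq_sub_of_hasDerivAt (fun t _ => hd t)
    exact (c.cont.mul (Real.continuous_cos.comp (continuous_id.sub continuous_const))).intervalIntegrable _ _
  · have hd : ∀ t : ℝ, HasDerivAt (fun s => dt (ee θ) (c.G s)) (-(c.R t * Real.sin (t - θ))) t := by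
      intro t
      have h1 := hasDerivAt_re (c.der t)
      have h2 := hasDerivAt_im (c.der t)
      have h3 := (h1.const_mul (Real.cos θ)).add (h2.const_mul (Real.sin θ))
      have h4 : Real.cos θ * ((c.R t : ℝ) • tt t).re + Real.sin θ * ((c.R t : ℝ) • tt t).im =
          -(c.R t * Real.sin (t - θ)) := by
        rw [← mul_neg, ← dt_ee_tt, ← dt_smul_right]; simp only [dt, ee_re, ee_im]
      rw [h4] at h3
      have h5 : (fun s => dt (ee θ) (c.G s)) =
          (fun s => Real.cos θ * (c.G s).re) + fun s => Real.sin θ * (c.G s).im := by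
        funext s; simp [dt]
      rw [h5]; exact h3
    rw [dt_sub_right, ← intervalIntegral.integral_neg]
    symm
    apply intervalIntegral.integral_eq_sub_of_hasDerivAt (fun t _ => hd t)
    exact ((c.cont.mul (Real.continuous_sin.comp
      (continuous_id.sub continuous_const))).neg).intervalIntegrable _ _

end Pool.Agent.Helper42.DB.PkCRV
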