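import Mathlib
import Pool.Agent.Helper42.DB.Goals2
import Pool.Agent.Helper49.DB.CRV

set_option autoImplicit false

/-!
# Packet FANLAND of the dispersing billiards project (MP_48f005_an)
-/

namespace Pool.Agent.Helper42.DB.PkFANLAND

open Set Filter Topology
open Pool.Agent.Helper42.DB

lemma hasDerivAt_cr (c : Crv) (X : ℂ) (θ t : ℝ) :
    HasDerivAt (fun s => cr (ee θ) (c.G s - X)) (c.R t * Real.cos (t - θ)) t := by
  have h1 := PkCRV.hasDerivAt_re (c.der t)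
  have h2 := PkCRV.hasDerivAt_im (c.der t)
  have h3 := (((h2.sub_const X.im).const_mul (Real.cos θ)).sub
    ((h1.sub_const X.re).const_mul (Real.sin θ)))
  have h4 : Real.cos θ * ((c.R t : ℝ) • tt t).im - Real.sin θ * ((c.R t : ℝ) • tt t).re =
      c.R t * Real.cos (t - θ) := by
    rw [← cr_ee_tt, ← cr_smul_right]; simp only [cr, ee_re, ee_im]
  rw [h4] at h3
  exact h3

lemma decomp (θ : ℝ) (w : ℂ) (h : cr (ee θ) w = 0) : w = dt (ee θ) w • ee θ := by
  have h1 := Real.sin_sq_add_cos_sq θ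
  simp only [cr, ee_re, ee_im] at h
  apply Complex.ext
  · simp only [dt, Complex.smul_re, ee_re, ee_im, smul_eq_mul]
    linear_combination w.re * (-h1) - Real.sin θ * h
  · simp only [dt, Complex.smul_im, ee_re, ee_im, smul_eq_mul]
    linear_combination w.im * (-h1) + Real.cos θ * h

lemma ee_comb (μ μ0 μ1 : ℝ) :
    Real.sin (μ0 - μ1) • ee μ = Real.sin (μ - μ1) • ee μ0 + Real.sin (μ0 - μ) • ee μ1 := by
  have e0 := Real.sin_sq_add_cos_sq μ
  apply Complex.ext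
  · simp only [Complex.add_re, Complex.smul_re, ee_re, smul_eq_mul, Real.sin_sub]; ring
  · simp only [Complex.add_im, Complex.smul_im, ee_im, smul_eq_mul, Real.sin_sub]; ring

lemma contT (c : Crv) (X : ℂ) {M : ℝ → ℝ} {s : Set ℝ} (hM : ContinuousOn M s) :
    ContinuousOn (fun θ => dt (ee θ) (c.G (M θ) - X)) s := by
  have h1 : ContinuousOn (fun θ => c.G (M θ) - X) s :=
    (c.continuous.comp_continuousOn hM).sub continuousOn_const
  have h2 : ContinuousOn (fun θ => (c.G (M θ) - X).re) s :=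
    Complex.continuous_re.comp_continuousOn h1
  have h3 : ContinuousOn (fun θ => (c.G (M θ) - X).im) s :=
    Complex.continuous_im.comp_continuousOn h1
  have h4 : ContinuousOn (fun θ => Real.cos θ * (c.G (M θ) - X).re +
      Real.sin θ * (c.G (M θ) - X).im) s :=
    (Real.continuous_cos.continuousOn.mul h2).add (Real.continuous_sin.continuousOn.mul h3)
  simpa only [dt, ee_re, ee_im] using h4

lemma main (c : Crv) (hR : ∀ u, 0 < c.R u)
    (hC : ∀ (θ u v : ℝ), dt (ee θ) (c.G v - c.G u) = -∫ t in u..v, c.R t * Real.sin (t - θ))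
    (X : ℂ) (θ0 θ1 kk μ0 μ1 T0 T1 : ℝ) (hθ : θ0 < θ1) (hπ : θ1 - θ0 < Real.pi)
    (hk : Real.cos kk = -1) (hμ : μ1 < μ0) (hμ1 : μ0 - μ1 ≤ 1)
    (hT0 : 0 < T0) (hT1 : 0 < T1) (hG0 : c.G μ0 = X + T0 • ee θ0) (hG1 : c.G μ1 = X + T1 • ee θ1)
    (ha0 : |θ0 + kk - μ0| < Real.pi / 2) (ha1 : |θ1 + kk - μ1| < Real.pi / 2) :
    ∃ μ T : ℝ → ℝ, μ θ0 = μ0 ∧ μ θ1 = μ1 ∧ T θ0 = T0 ∧ T θ1 = T1 ∧
    ContinuousOn μ (Icc θ0 θ1) ∧ ContinuousOn T (Icc θ0 θ1) ∧ StrictAntiOn μ (Icc θ0 θ1) ∧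
    ∀ θ ∈ Icc θ0 θ1, 0 < T θ ∧ c.G (μ θ) = X + T θ • ee θ ∧ |θ + kk - μ θ| < Real.pi / 2 := by
  have hsk : Real.sin kk = 0 := by
    have := Real.sin_sq_add_cos_sq kk
    rw [hk] at this; nlinarith
  have hcos : ∀ θ μ : ℝ, Real.cos (θ + kk - μ) = -Real.cos (μ - θ) := by
    intro θ μ
    have : θ + kk - μ = (θ - μ) + kk := by ring
    rw [this, Real.cos_add, hk, hsk, ← neg_sub μ θ, Real.cos_neg]; ring
  have hang : ∀ θ ∈ Icc θ0 θ1, ∀ μ ∈ Icc μ1 μ0, |θ + kk - μ| < Real.pi / 2 := by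
    intro θ hθ' μ hμ'
    obtain ⟨h1, h2⟩ := hθ'
    obtain ⟨h3, h4⟩ := hμ'
    rw [abs_lt] at ha0 ha1 ⊢
    constructor <;> linarith [ha0.1, ha0.2, ha1.1, ha1.2]
  have hcospos : ∀ θ ∈ Icc θ0 θ1, ∀ μ ∈ Icc μ1 μ0, 0 < Real.cos (θ + kk - μ) := by
    intro θ hθ' μ hμ'
    have := abs_lt.mp (hang θ hθ' μ hμ')
    exact Real.cos_pos_of_mem_Ioo ⟨by linarith [this.1], this.2⟩
  -- the function s
  obtain ⟨s, hs⟩ : ∃ s : ℝ → ℝ → ℝ, s = fun θ μ => cr (ee θ) (c.G μ - X) := ⟨_, rfl⟩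
  have hsc : Continuous (fun p : ℝ × ℝ => s p.1 p.2) := by
    rw [hs]
    apply continuous_cr
    · exact continuous_ee.comp continuous_fst
    · exact (c.continuous.comp continuous_snd).sub continuous_const
  have hsc1 : ∀ μ, Continuous (fun θ => s θ μ) := fun μ =>
    hsc.comp (continuous_id.prodMk continuous_const)
  have hsc2 : ∀ θ, Continuous (fun μ => s θ μ) := fun θ =>
    hsc.comp (continuous_const.prodMk continuous_id)
  have hanti : ∀ θ ∈ Icc θ0 θ1, StrictAntiOn (s θ) (Icc μ1 μ0) := by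
    intro θ hθ'
    apply strictAntiOn_of_deriv_neg (convex_Icc _ _) (hsc2 θ).continuousOn
    intro μ hμ'
    rw [interior_Icc] at hμ'
    have h1 : deriv (s θ) μ = c.R μ * Real.cos (μ - θ) := by
      rw [hs]; exact (hasDerivAt_cr c X θ μ).deriv
    rw [h1]
    have h2 := hcospos θ hθ' μ (Ioo_subset_Icc_self hμ')
    rw [hcos] at h2
    nlinarith [hR μ]
  have hs0 : ∀ θ, s θ μ0 = T0 * Real.sin (θ0 - θ) := by
    intro θ
    simp only [hs]; rw [hG0, add_sub_cancel_left, cr_smul_right, cr_ee_ee]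
  have hs1 : ∀ θ, s θ μ1 = T1 * Real.sin (θ1 - θ) := by
    intro θ
    simp only [hs]; rw [hG1, add_sub_cancel_left, cr_smul_right, cr_ee_ee]
  have hs0' : ∀ θ ∈ Icc θ0 θ1, s θ μ0 ≤ 0 := by
    intro θ hθ'
    rw [hs0, ← neg_sub θ θ0, Real.sin_neg]
    have := Real.sin_nonneg_of_nonneg_of_le_pi (x := θ - θ0) (by linarith [hθ'.1])
      (by linarith [hθ'.2])
    nlinarith
  have hs1' : ∀ θ ∈ Icc θ0 θ1, 0 ≤ s θ μ1 := by
    intro θ hθ'
    rw [hs1]
    have := Real.sin_nonneg_of_nonneg_of_le_pi (x := θ1 - θ) (by linarith [hθ'.2])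
      (by linarith [hθ'.1])
    positivity
  have hex : ∀ θ : ℝ, ∃ μ, θ ∈ Icc θ0 θ1 → μ ∈ Icc μ1 μ0 ∧ s θ μ = 0 := by
    intro θ
    by_cases hθ' : θ ∈ Icc θ0 θ1
    · have h1 := intermediate_value_Icc' hμ.le (hsc2 θ).continuousOn
      obtain ⟨μ, hμ', h2⟩ := h1 ⟨hs0' θ hθ', hs1' θ hθ'⟩
      exact ⟨μ, fun _ => ⟨hμ', h2⟩⟩
    · exact ⟨0, fun h => absurd h hθ'⟩
  choose M hM using hex
  have hMm : ∀ θ ∈ Icc θ0 θ1, M θ ∈ Icc μ1 μ0 := fun θ h => (hM θ h).1
  have hMz : ∀ θ ∈ Icc θ0 θ1, s θ (M θ) = 0 := fun θ h => (hM θ h).2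
  have huniq : ∀ θ ∈ Icc θ0 θ1, ∀ μ ∈ Icc μ1 μ0, s θ μ = 0 → M θ = μ := by
    intro θ h μ hμ' hz
    exact (hanti θ h).injOn (hMm θ h) hμ' ((hMz θ h).trans hz.symm)
  have hθ0m : θ0 ∈ Icc θ0 θ1 := ⟨le_rfl, hθ.le⟩
  have hθ1m : θ1 ∈ Icc θ0 θ1 := ⟨hθ.le, le_rfl⟩
  have hM0 : M θ0 = μ0 := huniq θ0 hθ0m μ0 ⟨hμ.le, le_rfl⟩ (by rw [hs0]; simp)
  have hM1 : M θ1 = μ1 := huniq θ1 hθ1m μ1 ⟨le_rfl, hμ.le⟩ (by rw [hs1]; simp)
  obtain ⟨T, hTdef⟩ : ∃ T : ℝ → ℝ, T = fun θ => dt (ee θ) (c.G (M θ) - X) := ⟨_, rfl⟩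
  have hTeq : ∀ θ ∈ Icc θ0 θ1, c.G (M θ) - X = T θ • ee θ := by
    intro θ h
    have h1 := hMz θ h
    rw [hs] at h1
    rw [hTdef]
    exact decomp θ _ h1
  -- positivity of g
  have hgpos : ∀ μ ∈ Icc μ1 μ0, 0 < dt (ee μ) (X - c.G μ) := by
    intro μ hμ'
    have pi3 := Real.pi_gt_three
    have hA : 0 < dt (ee μ0) (X - c.G μ0) := by
      rw [hG0, sub_add_cancel_left, dt_neg_right, dt_smul_right, dt_ee_ee]
      have h1 := hcospos θ0 hθ0m μ0 ⟨hμ.le, le_rfl⟩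
      rw [hcos, ← Real.cos_neg, neg_sub] at h1
      nlinarith
    have hB : 0 < dt (ee μ1) (X - c.G μ1) := by
      rw [hG1, sub_add_cancel_left, dt_neg_right, dt_smul_right, dt_ee_ee]
      have h1 := hcospos θ1 hθ1m μ1 ⟨le_rfl, hμ.le⟩
      rw [hcos, ← Real.cos_neg, neg_sub] at h1
      nlinarith
    have hA' : 0 < dt (ee μ0) (X - c.G μ) := by
      have e : X - c.G μ = (X - c.G μ0) + (c.G μ0 - c.G μ) := by ring
      rw [e, dt_add_right, hC μ0 μ μ0]
      have : ∫ t in μ..μ0, c.R t * Real.sin (t - μ0) ≤ 0 := by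
        have e2 : ∫ t in μ..μ0, c.R t * Real.sin (t - μ0) =
            -∫ t in μ..μ0, -(c.R t * Real.sin (t - μ0)) := by
          rw [intervalIntegral.integral_neg, neg_neg]
        rw [e2, neg_nonpos]
        apply intervalIntegral.integral_nonneg hμ'.2
        intro t ht
        have h1 := Real.sin_nonneg_of_nonneg_of_le_pi (x := μ0 - t) (by linarith [ht.2])
          (by linarith [ht.1, hμ'.1])
        rw [← neg_sub μ0 t, Real.sin_neg]
        nlinarith [hR t]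
      linarith
    have hB' : 0 < dt (ee μ1) (X - c.G μ) := by
      have e : X - c.G μ = (X - c.G μ1) - (c.G μ - c.G μ1) := by ring
      rw [e, dt_sub_right, hC μ1 μ1 μ]
      have : 0 ≤ ∫ t in μ1..μ, c.R t * Real.sin (t - μ1) := by
        apply intervalIntegral.integral_nonneg hμ'.1
        intro t ht
        have h1 := Real.sin_nonneg_of_nonneg_of_le_pi (x := t - μ1) (by linarith [ht.1])
          (by linarith [ht.2, hμ'.2])
        nlinarith [hR t]
      linarith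
    have hs01 : 0 < Real.sin (μ0 - μ1) :=
      Real.sin_pos_of_pos_of_lt_pi (by linarith) (by linarith)
    have hc1 : 0 ≤ Real.sin (μ - μ1) :=
      Real.sin_nonneg_of_nonneg_of_le_pi (by linarith [hμ'.1]) (by linarith [hμ'.2])
    have hc2 : 0 ≤ Real.sin (μ0 - μ) :=
      Real.sin_nonneg_of_nonneg_of_le_pi (by linarith [hμ'.2]) (by linarith [hμ'.1])
    have key : Real.sin (μ0 - μ1) * dt (ee μ) (X - c.G μ) =
        Real.sin (μ - μ1) * dt (ee μ0) (X - c.G μ) +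
          Real.sin (μ0 - μ) * dt (ee μ1) (X - c.G μ) := by
      rw [← dt_smul_left, ee_comb, dt_add_left, dt_smul_left, dt_smul_left]
    have hpos : 0 < Real.sin (μ - μ1) * dt (ee μ0) (X - c.G μ) +
          Real.sin (μ0 - μ) * dt (ee μ1) (X - c.G μ) := by
      rcases hμ'.1.eq_or_lt with h | h
      · have h2 : 0 < Real.sin (μ0 - μ) := by rw [← h]; exact hs01
        have := mul_pos h2 hB'
        have := mul_nonneg hc1 hA'.le
        linarith
      · have h2 : 0 < Real.sin (μ - μ1) :=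
          Real.sin_pos_of_pos_of_lt_pi (by linarith) (by linarith [hμ'.2])
        have := mul_pos h2 hA'
        have := mul_nonneg hc2 hB'.le
        linarith
    rw [← key] at hpos
    exact (mul_pos_iff_of_pos_left hs01).mp hpos
  have hTpos : ∀ θ ∈ Icc θ0 θ1, 0 < T θ := by
    intro θ h
    have h1 := hgpos (M θ) (hMm θ h)
    have h2 := hcospos θ h (M θ) (hMm θ h)
    have e : X - c.G (M θ) = -(T θ • ee θ) := by rw [← hTeq θ h]; ring
    rw [e, dt_neg_right, dt_smul_right, dt_ee_ee] at h1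
    rw [hcos, ← Real.cos_neg, neg_sub] at h2
    by_contra hn
    push Not at hn
    nlinarith
  have hMstr : StrictAntiOn M (Icc θ0 θ1) := by
    intro θ h θ' h' hlt
    by_contra hn
    push Not at hn
    have h1 : s θ (M θ') ≤ s θ (M θ) := (hanti θ h).antitoneOn (hMm θ h) (hMm θ' h') hn
    rw [hMz θ h] at h1
    have h2 : s θ (M θ') = T θ' * Real.sin (θ' - θ) := by
      simp only [hs]; rw [hTeq θ' h', cr_smul_right, cr_ee_ee]
    rw [h2] at h1
    have h3 : 0 < Real.sin (θ' - θ) :=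
      Real.sin_pos_of_pos_of_lt_pi (by linarith) (by linarith [h.1, h'.2])
    have := mul_pos (hTpos θ' h') h3
    linarith
  have hMc : ContinuousOn M (Icc θ0 θ1) := by
    intro θ h
    refine tendsto_order.2 ⟨fun a ha => ?_, fun a ha => ?_⟩
    · by_cases h1 : a < μ1
      · filter_upwards [self_mem_nhdsWithin] with θ' h'
        exact lt_of_lt_of_le h1 (hMm θ' h').1
      · push Not at h1
        have ham : a ∈ Icc μ1 μ0 := ⟨h1, ha.le.trans (hMm θ h).2⟩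
        have h2 : 0 < s θ a := by
          rw [← hMz θ h]; exact hanti θ h ham (hMm θ h) ha
        have h3 : ∀ᶠ θ' in 𝓝[Icc θ0 θ1] θ, 0 < s θ' a :=
          ((hsc1 a).continuousAt.eventually (lt_mem_nhds h2)).filter_mono nhdsWithin_le_nhds
        filter_upwards [h3, self_mem_nhdsWithin] with θ' h4 h'
        by_contra hn
        push Not at hn
        have := (hanti θ' h').antitoneOn (hMm θ' h') ham hn
        rw [hMz θ' h'] at this
        linarith
    · by_cases h1 : μ0 < a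
      · filter_upwards [self_mem_nhdsWithin] with θ' h'
        exact lt_of_le_of_lt (hMm θ' h').2 h1
      · push Not at h1
        have ham : a ∈ Icc μ1 μ0 := ⟨(hMm θ h).1.trans ha.le, h1⟩
        have h2 : s θ a < 0 := by
          rw [← hMz θ h]; exact hanti θ h (hMm θ h) ham ha
        have h3 : ∀ᶠ θ' in 𝓝[Icc θ0 θ1] θ, s θ' a < 0 :=
          ((hsc1 a).continuousAt.eventually (gt_mem_nhds h2)).filter_mono nhdsWithin_le_nhds
        filter_upwards [h3, self_mem_nhdsWithin] with θ' h4 h'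
        by_contra hn
        push Not at hn
        have := (hanti θ' h').antitoneOn ham (hMm θ' h') hn
        rw [hMz θ' h'] at this
        linarith
  refine ⟨M, T, hM0, hM1, ?_, ?_, hMc, ?_, hMstr, ?_⟩
  · simp only [hTdef]; rw [hM0, hG0, add_sub_cancel_left, dt_smul_right, dt_ee_ee]; simp
  · simp only [hTdef]; rw [hM1, hG1, add_sub_cancel_left, dt_smul_right, dt_ee_ee]; simp
  · rw [hTdef]; exact contT c X hMc
  · intro θ h
    refine ⟨hTpos θ h, ?_, hang θ h _ (hMm θ h)⟩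
    rw [← hTeq θ h]; ring

theorem thm (S : Sys) : G_CRV → G_FANLAND S := by
  intro hC X j θ0 θ1 kk μ0 μ1 T0 T1 hθ hπ hk hμ hμ1 hT0 hT1 hG0 hG1 ha0 ha1
  exact main (S.crv j) (fun u => lt_of_lt_of_le S.r0_pos (S.le_R j u))
    (fun θ u v => (hC (S.crv j) θ u v).2) X θ0 θ1 kk μ0 μ1 T0 T1 hθ hπ hk hμ hμ1 hT0 hT1 hG0 hG1
    ha0 ha1

end Pool.Agent.Helper42.DB.PkFANLAND
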